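import Pool.Agent.TH455.C4

set_option autoImplicit false

/-!
The correspondence packing number of the class of planar bipartite graphs is four.
-/

namespace Pool.Agent.Results.MP_6a62cd_co.CorrBipartiteFour

open Pool.Agent.TH455
open Pool.Agent.H239R2.Planar (HasStraightLineDrawing)

theorem free_of_bip {V : Type} {G : SimpleGraph V} (h : G.Colorable 2) : G.CliqueFree 3 :=
  h.cliqueFree (by norm_num)

/-- The maximum of the correspondence packing number over all finite bipartite graphs with a
straight-line drawing in the plane is `4`, and every `4`-fold cover of a finite bipartite graph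
with a straight-line drawing, or without `K₅` and `K₃,₃` minors, has a packing. -/
theorem result :
    IsGreatest {k : ℕ | ∃ (V : Type) (_ : Fintype V) (G : SimpleGraph V),
      HasStraightLineDrawing G ∧ G.Colorable 2 ∧ corrPackingNumber G = k} 4 ∧
    ∀ (V : Type) [Fintype V] (G : SimpleGraph V), HasStraightLineDrawing G ∨ NoKMinor G →
      G.Colorable 2 → ∀ C : Cover G 4, C.HasPacking := by
  have up : ∀ (V : Type) [Fintype V] (G : SimpleGraph V), HasStraightLineDrawing G ∨ NoKMinor G →
      G.Colorable 2 → ∀ C : Cover G 4, C.HasPacking := by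
    intro V _ G hG hbip
    exact corr_of_sparse G (planar_free_sparse (Or.inr hG) (free_of_bip hbip))
  refine ⟨⟨⟨Fin 4, inferInstance, C4.G, C4.drawing, C4.bipartite, C4.corr_eq⟩, ?_⟩, up⟩
  rintro k ⟨V, _, G, h1, h2, rfl⟩
  exact corrPackingNumber_le (by norm_num) (up V G (Or.inl h1) h2)

end Pool.Agent.Results.MP_6a62cd_co.CorrBipartiteFour
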